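import Pool.Agent.Q189.IB.Stm

/-!
# Project IB of helper189: the algebraic independence of the series `hs`
-/

set_option autoImplicit false

open PowerSeries Pool.Agent.Q189.IB

namespace Pool.Agent.Q224.IB

section

variable {k : ℕ}

/-- a map of the coefficients -/
noncomputable def dc (D : Polynomial ℚ → Polynomial ℚ) (P : MvPolynomial (Fin k) (Polynomial ℚ)) :
    MvPolynomial (Fin k) (Polynomial ℚ) := ∑ f ∈ P.support, MvPolynomial.monomial f (D (P.coeff f))

lemma coeff_dc {D : Polynomial ℚ → Polynomial ℚ} (hD : D 0 = 0) (P : MvPolynomial (Fin k) (Polynomial ℚ)) (f : Fin k →₀ ℕ) :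
    (dc D P).coeff f = D (P.coeff f) := by
  classical
  unfold dc
  rw [MvPolynomial.coeff_sum]
  simp only [MvPolynomial.coeff_monomial]
  rw [Finset.sum_ite_eq' P.support f (fun g => D (P.coeff g))]
  split_ifs with h
  · rfl
  · rw [MvPolynomial.notMem_support_iff.1 h, hD]

/-- the derivation of the ring of polynomials -/
noncomputable def del (T : Polynomial ℚ) (a : Fin k → Polynomial ℚ) (P : MvPolynomial (Fin k) (Polynomial ℚ)) :
    MvPolynomial (Fin k) (Polynomial ℚ) :=
  dc (fun p => T * Polynomial.derivative p) P + ∑ j, (1 + MvPolynomial.C (a j) * MvPolynomial.X j) * MvPolynomial.pderiv j P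

variable {T : Polynomial ℚ} {a : Fin k → Polynomial ℚ}

lemma coeff_del (P : MvPolynomial (Fin k) (Polynomial ℚ)) (f : Fin k →₀ ℕ) :
    (del T a P).coeff f = T * Polynomial.derivative (P.coeff f) +
      (∑ j, (f j : Polynomial ℚ) * a j) * P.coeff f +
      ∑ j, ((f j : Polynomial ℚ) + 1) * P.coeff (f + Finsupp.single j 1) := by
  classical
  unfold del
  rw [MvPolynomial.coeff_add, coeff_dc (by simp), MvPolynomial.coeff_sum, add_assoc, Finset.sum_mul, ← Finset.sum_add_distrib]
  congr 1
  refine Finset.sum_congr rfl fun j _ => ?_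
  rw [add_mul, one_mul, MvPolynomial.coeff_add, MvPolynomial.coeff_pderiv, mul_assoc, MvPolynomial.coeff_C_mul,
    MvPolynomial.coeff_X_mul']
  split_ifs with h
  · have h1 : f - Finsupp.single j 1 + Finsupp.single j 1 = f := by
      rw [tsub_add_cancel_of_le]
      rw [Finsupp.single_le_iff]
      have := Finsupp.mem_support_iff.1 h
      omega
    have h2 : (f - Finsupp.single j 1 : Fin k →₀ ℕ) j + 1 = f j := by
      have := congrArg (fun g : Fin k →₀ ℕ => g j) h1
      simpa using this
    rw [MvPolynomial.coeff_pderiv, h1]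
    have h3 : (((f - Finsupp.single j 1 : Fin k →₀ ℕ) j : ℕ) : Polynomial ℚ) + 1 = (f j : Polynomial ℚ) := by
      exact_mod_cast congrArg (Nat.cast : ℕ → Polynomial ℚ) h2
    rw [h3]
    ring
  · have h1 : f j = 0 := by simpa using h
    rw [h1]
    simp

lemma del_add (P Q : MvPolynomial (Fin k) (Polynomial ℚ)) : del T a (P + Q) = del T a P + del T a Q := by
  ext1 f
  rw [MvPolynomial.coeff_add, coeff_del, coeff_del, coeff_del]
  simp only [MvPolynomial.coeff_add, Polynomial.derivative_add, mul_add, Finset.sum_add_distrib]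
  ring

lemma del_C (p : Polynomial ℚ) : del T a (MvPolynomial.C p) = MvPolynomial.C (T * Polynomial.derivative p) := by
  classical
  unfold del
  simp only [MvPolynomial.pderiv_C, mul_zero, Finset.sum_const_zero, add_zero]
  ext1 f
  rw [coeff_dc (by simp), MvPolynomial.coeff_C, MvPolynomial.coeff_C]
  split_ifs <;> simp

lemma del_mul_X (P : MvPolynomial (Fin k) (Polynomial ℚ)) (i : Fin k) :
    del T a (P * MvPolynomial.X i) = del T a P * MvPolynomial.X i +
      P * (1 + MvPolynomial.C (a i) * MvPolynomial.X i) := by
  classical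
  have h1 : dc (fun p => T * Polynomial.derivative p) (P * MvPolynomial.X i) =
      dc (fun p => T * Polynomial.derivative p) P * MvPolynomial.X i := by
    ext1 f
    rw [coeff_dc (by simp), MvPolynomial.coeff_mul_X', MvPolynomial.coeff_mul_X']
    split_ifs
    · rw [coeff_dc (by simp)]
    · simp
  unfold del
  rw [h1, add_mul, add_assoc, Finset.sum_mul]
  congr 1
  have h2 : ∀ j, (1 + MvPolynomial.C (a j) * MvPolynomial.X j) * MvPolynomial.pderiv j (P * MvPolynomial.X i) =
      (1 + MvPolynomial.C (a j) * MvPolynomial.X j) * MvPolynomial.pderiv j P * MvPolynomial.X i +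
      if i = j then P * (1 + MvPolynomial.C (a i) * MvPolynomial.X i) else 0 := by
    intro j
    rw [MvPolynomial.pderiv_mul]
    by_cases hij : i = j
    · subst hij
      rw [if_pos rfl, MvPolynomial.pderiv_X_self]
      ring
    · rw [if_neg hij, MvPolynomial.pderiv_X_of_ne hij]
      ring
  rw [Finset.sum_congr rfl fun j _ => h2 j, Finset.sum_add_distrib, Finset.sum_ite_eq]
  simp

variable {h : Fin k → ℚ⟦X⟧}

lemma amap (p : Polynomial ℚ) : algebraMap (Polynomial ℚ) ℚ⟦X⟧ p = (p : ℚ⟦X⟧) := by
  rw [PowerSeries.algebraMap_apply']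
  simp

lemma aeval_del (hode : ∀ j, (T : ℚ⟦X⟧) * d⁄dX ℚ (h j) = 1 + (a j : ℚ⟦X⟧) * h j) (P : MvPolynomial (Fin k) (Polynomial ℚ)) :
    MvPolynomial.aeval h (del T a P) = (T : ℚ⟦X⟧) * d⁄dX ℚ (MvPolynomial.aeval h P) := by
  induction P using MvPolynomial.induction_on with
  | C p =>
    rw [del_C, MvPolynomial.aeval_C, MvPolynomial.aeval_C, amap, amap, PowerSeries.derivative_coe, Polynomial.coe_mul]
  | add P Q hP hQ =>
    rw [del_add, map_add, hP, hQ, map_add, map_add, mul_add]
  | mul_X P i hP =>
    rw [del_mul_X, map_add, map_mul, hP, map_mul, map_mul, map_add, map_one, map_mul, MvPolynomial.aeval_C,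
      MvPolynomial.aeval_X, amap, ← hode i, Derivation.leibniz]
    simp only [smul_eq_mul]
    ring

/-- the degree of a monomial -/
def dg (f : Fin k →₀ ℕ) : ℕ := ∑ j, f j

lemma dg_add (f g : Fin k →₀ ℕ) : dg (f + g) = dg f + dg g := by
  unfold dg
  rw [← Finset.sum_add_distrib]
  rfl

lemma dg_single (j : Fin k) : dg (Finsupp.single j 1) = 1 := by
  classical
  unfold dg
  simp [Finsupp.single_apply]

/-- the main argument -/
theorem main {u v : Fin k → ℚ} (huv : ∀ j, 0 < u j ∧ 0 < v j) (hz : ∀ j (z : ℤ), u j ≠ z ∧ v j ≠ z)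
    (hij : ∀ i j, i ≠ j → ¬ ((∃ z : ℤ, u i - u j = z) ∧ ∃ z : ℤ, v i - v j = z))
    (hT : T = Polynomial.X * (1 - Polynomial.X))
    (ha : ∀ j, a j = Polynomial.C (-u j) + Polynomial.C (u j + v j) * Polynomial.X)
    (hode : ∀ j, (T : ℚ⟦X⟧) * d⁄dX ℚ (h j) = 1 + (a j : ℚ⟦X⟧) * h j)
    (hrat : ∀ (u v c : ℚ), 0 < u → 0 < v → (∀ z : ℤ, u ≠ z) → (∀ z : ℤ, v ≠ z) → c ≠ 0 →
      ¬ ∃ P Q : Polynomial ℚ, Q ≠ 0 ∧
        Polynomial.X * (1 - Polynomial.X) * (Polynomial.derivative P * Q - P * Polynomial.derivative Q) =
          (Polynomial.C (-u) + Polynomial.C (u + v) * Polynomial.X) * P * Q + Polynomial.C c * Q ^ 2)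
    (hlog : ∀ (s t : ℚ) (P Q : Polynomial ℚ), P ≠ 0 → Q ≠ 0 →
      Polynomial.X * (1 - Polynomial.X) * (Polynomial.derivative P * Q - P * Polynomial.derivative Q) =
        (Polynomial.C (-s) + Polynomial.C (s + t) * Polynomial.X) * P * Q → (∃ z : ℤ, s = z) ∧ ∃ z : ℤ, t = z)
    (d : ℕ) : ∀ (N : ℕ) (P : MvPolynomial (Fin k) (Polynomial ℚ)), P ≠ 0 → P.support.sup dg = d →
      (P.support.filter fun f => dg f = d).card = N → MvPolynomial.aeval h P ≠ 0 := by
  classical
  induction d using Nat.strong_induction_on with
  | _ d IH =>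
    intro N
    induction N using Nat.strong_induction_on with
    | _ N IHN =>
      intro P hP hPd hPN hP0
      have hle : ∀ f, d < dg f → P.coeff f = 0 := by
        intro f hf
        by_contra hne
        have := Finset.le_sup (f := dg) (MvPolynomial.mem_support_iff.2 hne)
        omega
      obtain ⟨e, he, hed⟩ := Finset.exists_mem_eq_sup P.support (MvPolynomial.support_nonempty.2 hP) dg
      rw [hPd] at hed
      have hpe : P.coeff e ≠ 0 := MvPolynomial.mem_support_iff.1 he
      set Q : MvPolynomial (Fin k) (Polynomial ℚ) := MvPolynomial.C (P.coeff e) * del T a P -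
        MvPolynomial.C (T * Polynomial.derivative (P.coeff e) + P.coeff e * ∑ j, (e j : Polynomial ℚ) * a j) * P with hQdef
      have hQc : ∀ f, Q.coeff f = P.coeff e * (T * Polynomial.derivative (P.coeff f) +
          (∑ j, (f j : Polynomial ℚ) * a j) * P.coeff f + ∑ j, ((f j : Polynomial ℚ) + 1) * P.coeff (f + Finsupp.single j 1)) -
          (T * Polynomial.derivative (P.coeff e) + P.coeff e * ∑ j, (e j : Polynomial ℚ) * a j) * P.coeff f := by
        intro f
        rw [hQdef, MvPolynomial.coeff_sub, MvPolynomial.coeff_C_mul, MvPolynomial.coeff_C_mul, coeff_del]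
      have hQ0 : MvPolynomial.aeval h Q = 0 := by
        rw [hQdef, map_sub, map_mul, map_mul, aeval_del hode, hP0]
        simp
      have hhigh : ∀ f, d ≤ dg f → ∀ j, P.coeff (f + Finsupp.single j 1) = 0 := by
        intro f hf j
        apply hle
        rw [dg_add, dg_single]
        omega
      have hQle : ∀ f, d < dg f → Q.coeff f = 0 := by
        intro f hf
        rw [hQc, hle f hf]
        simp [hhigh f hf.le]
      have hQtop : ∀ f, dg f = d → P.coeff f = 0 → Q.coeff f = 0 := by
        intro f hf h0
        rw [hQc, h0]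
        simp [hhigh f hf.ge]
      have hQe : Q.coeff e = 0 := by
        rw [hQc]
        simp only [hhigh e hed.le, mul_zero, Finset.sum_const_zero, add_zero]
        ring
      have hQz : Q = 0 := by
        by_contra hQne
        have hsup : Q.support.sup dg ≤ d := by
          refine Finset.sup_le fun f hf => ?_
          by_contra hlt
          exact MvPolynomial.mem_support_iff.1 hf (hQle f (by omega))
        rcases lt_or_eq_of_le hsup with hlt | heq
        · exact IH _ hlt _ Q hQne rfl rfl hQ0
        · refine IHN _ ?_ Q hQne heq rfl hQ0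
          rw [← hPN]
          refine Finset.card_lt_card ?_
          rw [Finset.ssubset_iff_of_subset]
          · refine ⟨e, Finset.mem_filter.2 ⟨he, hed.symm⟩, ?_⟩
            intro hmem
            exact MvPolynomial.mem_support_iff.1 (Finset.mem_filter.1 hmem).1 hQe
          · intro f hf
            obtain ⟨hf1, hf2⟩ := Finset.mem_filter.1 hf
            refine Finset.mem_filter.2 ⟨?_, hf2⟩
            rw [MvPolynomial.mem_support_iff]
            intro h0
            exact MvPolynomial.mem_support_iff.1 hf1 (hQtop f hf2 h0)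
      have hQf : ∀ f, P.coeff e * (T * Polynomial.derivative (P.coeff f) +
          (∑ j, (f j : Polynomial ℚ) * a j) * P.coeff f + ∑ j, ((f j : Polynomial ℚ) + 1) * P.coeff (f + Finsupp.single j 1)) -
          (T * Polynomial.derivative (P.coeff e) + P.coeff e * ∑ j, (e j : Polynomial ℚ) * a j) * P.coeff f = 0 := by
        intro f
        rw [← hQc, hQz, MvPolynomial.coeff_zero]
      have hsum : ∀ f g : Fin k →₀ ℕ, (∑ j, (f j : Polynomial ℚ) * a j) - ∑ j, (g j : Polynomial ℚ) * a j =
          Polynomial.C (-(∑ j, ((f j : ℚ) - g j) * u j)) +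
            Polynomial.C ((∑ j, ((f j : ℚ) - g j) * u j) + ∑ j, ((f j : ℚ) - g j) * v j) * Polynomial.X := by
        intro f g
        rw [← Finset.sum_sub_distrib, ← Finset.sum_add_distrib, ← Finset.sum_neg_distrib, map_sum, map_sum, Finset.sum_mul,
          ← Finset.sum_add_distrib]
        refine Finset.sum_congr rfl fun j _ => ?_
        rw [ha]
        simp only [Polynomial.C_neg, Polynomial.C_add, Polynomial.C_mul, Polynomial.C_sub, Polynomial.C_eq_natCast]
        ring
      -- the top coefficients
      have htop : ∀ f, dg f = d → P.coeff f ≠ 0 → (∃ z : ℤ, ∑ j, ((e j : ℚ) - f j) * u j = z) ∧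
          ∃ z : ℤ, ∑ j, ((e j : ℚ) - f j) * v j = z := by
        intro f hf hf0
        refine hlog _ _ (P.coeff f) (P.coeff e) hf0 hpe ?_
        rw [← hsum, ← hT]
        have h1 := hQf f
        simp only [hhigh f hf.ge, mul_zero, Finset.sum_const_zero, add_zero] at h1
        linear_combination h1
      rcases Nat.eq_zero_or_pos d with hd0 | hdpos
      · -- degree zero
        have hz0 : ∀ f : Fin k →₀ ℕ, dg f = 0 → f = 0 := by
          intro f hf
          ext j
          have := Finset.sum_eq_zero_iff.1 hf j (Finset.mem_univ j)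
          simpa using this
        have hPC : P = MvPolynomial.C (P.coeff 0) := by
          ext1 f
          rw [MvPolynomial.coeff_C]
          split_ifs with h0
          · rw [h0]
          · apply hle
            rw [hd0]
            rcases Nat.eq_zero_or_pos (dg f) with h1 | h1
            · exact absurd (hz0 f h1).symm h0
            · exact h1
        rw [hPC, MvPolynomial.aeval_C, amap] at hP0
        have h1 : P.coeff 0 = 0 := by
          apply Polynomial.coe_injective ℚ
          rw [hP0]
          simp
        rw [h1] at hPC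
        exact hP (by rw [hPC]; simp)
      · obtain ⟨j, hj⟩ : ∃ j, 0 < e j := by
          by_contra hcon
          push Not at hcon
          have : dg e = 0 := Finset.sum_eq_zero fun j _ => Nat.le_zero.1 (hcon j)
          omega
        set f : Fin k →₀ ℕ := e - Finsupp.single j 1 with hfdef
        have hfe : f + Finsupp.single j 1 = e := by
          rw [hfdef, tsub_add_cancel_of_le]
          rw [Finsupp.single_le_iff]
          omega
        have hdf : dg f + 1 = d := by
          rw [hed, ← hfe, dg_add, dg_single]
        have hother : ∀ i, i ≠ j → P.coeff (f + Finsupp.single i 1) = 0 := by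
          intro i hi
          by_contra hne
          obtain ⟨h1, h2⟩ := htop _ (by rw [dg_add, dg_single, hdf]) hne
          have hdiff : ∀ l, ((e l : ℚ) - ((f + Finsupp.single i 1 : Fin k →₀ ℕ) l : ℕ)) =
              (if l = j then 1 else 0) - (if l = i then 1 else 0) := by
            intro l
            rw [← hfe]
            simp only [Finsupp.add_apply, Finsupp.single_apply]
            push_cast
            simp only [eq_comm (a := j), eq_comm (a := i)]
            ring
          refine hij j i (Ne.symm hi) ⟨?_, ?_⟩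
          · obtain ⟨z, hz⟩ := h1
            refine ⟨z, ?_⟩
            rw [← hz]
            simp only [hdiff, sub_mul, Finset.sum_sub_distrib, ite_mul, one_mul, zero_mul]
            simp
          · obtain ⟨z, hz⟩ := h2
            refine ⟨z, ?_⟩
            rw [← hz]
            simp only [hdiff, sub_mul, Finset.sum_sub_distrib, ite_mul, one_mul, zero_mul]
            simp
        refine hrat (u j) (v j) (-(e j : ℚ)) (huv j).1 (huv j).2 (fun z => (hz j z).1) (fun z => (hz j z).2)
          (neg_ne_zero.2 (by exact_mod_cast hj.ne')) ⟨P.coeff f, P.coeff e, hpe, ?_⟩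
        rw [← ha, ← hT]
        have h1 := hQf f
        have h0 : ∑ i, ((f i : Polynomial ℚ) + 1) * P.coeff (f + Finsupp.single i 1) = ((f j : Polynomial ℚ) + 1) * P.coeff e := by
          rw [Finset.sum_eq_single j (fun i _ hi => by rw [hother i hi, mul_zero]) (fun hn => absurd (Finset.mem_univ j) hn),
            hfe]
        rw [h0] at h1
        have h2 : (∑ i, (e i : Polynomial ℚ) * a i) = (∑ i, (f i : Polynomial ℚ) * a i) + a j := by
          rw [← hfe]
          simp only [Finsupp.add_apply, Finsupp.single_apply]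
          push_cast
          simp only [add_mul, Finset.sum_add_distrib, ite_mul, one_mul, zero_mul]
          simp
        have h3 : (e j : Polynomial ℚ) = (f j : Polynomial ℚ) + 1 := by
          rw [← hfe]
          simp
        have h4 : Polynomial.C (-(e j : ℚ)) = -((f j : Polynomial ℚ) + 1) := by
          rw [← h3]
          simp
        rw [h4]
        rw [h2] at h1
        linear_combination h1

end

theorem ai (h1 : S_ODE) (h2 : S_RAT) (h3 : S_LOG) : S_AI := by
  intro k u v huv hz hij
  rw [algebraicIndependent_iff]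
  intro P hP0
  by_contra hP
  refine main (T := Polynomial.X * (1 - Polynomial.X))
    (a := fun j => Polynomial.C (-u j) + Polynomial.C (u j + v j) * Polynomial.X) huv hz hij rfl (fun j => rfl)
    (fun j => ?_) h2 h3 _ _ P hP rfl rfl hP0
  have := h1 (u j) (v j) (huv j).1
  simp only [Polynomial.coe_mul, Polynomial.coe_sub, Polynomial.coe_one, Polynomial.coe_X, Polynomial.coe_add,
    Polynomial.coe_C]
  exact this

end Pool.Agent.Q224.IB
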