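import Pool.Agent.Q189.IB.Stm

/-!
# Project IB of helper189: Galochkin's condition at the point `x = 1/2`
-/

set_option autoImplicit false

open PowerSeries Pool.Agent.Q189.IB

namespace Pool.Agent.Q224.IB

open Pool.Agent.Y113 (ps SDc)
open Pool.Agent.Y124.GE (GC R R_succ R_zero had SDc_had SDc_geo lgs SDc_lgs NIc_R NIc.SDc gc_of)

lemma rde (p : ℤ) (D : ℕ) (hD : 0 < D) : C (D : ℚ) * ((1 - X) * d⁄dX ℚ (R p D)) = C (p : ℚ) * R p D := by
  have hD0 : (D : ℚ) ≠ 0 := by exact_mod_cast hD.ne'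
  ext n
  rw [coeff_C_mul, coeff_C_mul, sub_mul, one_mul, map_sub]
  cases n with
  | zero =>
    rw [coeff_zero_X_mul, coeff_derivative, R_succ]
    push_cast
    field_simp
    ring
  | succ n =>
    rw [coeff_succ_X_mul, coeff_derivative, coeff_derivative, R_succ p D (n + 1)]
    push_cast
    have : (n : ℚ) + 1 + 1 ≠ 0 := by positivity
    field_simp
    ring

/-- the series `(1 + X)^(-p/D)` -/
noncomputable def Rp (p : ℤ) (D : ℕ) : ℚ⟦X⟧ := had (R p D) (PowerSeries.mk fun m => (-1) ^ m)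

lemma rpde (p : ℤ) (D : ℕ) (hD : 0 < D) : C (D : ℚ) * ((1 + X) * d⁄dX ℚ (Rp p D)) = - (C (p : ℚ) * Rp p D) := by
  have hD0 : (D : ℚ) ≠ 0 := by exact_mod_cast hD.ne'
  have hc : ∀ n, coeff n (Rp p D) = coeff n (R p D) * (-1) ^ n := fun n => by
    rw [Rp, had, coeff_mk, coeff_mk]
  ext n
  rw [coeff_C_mul, map_neg, coeff_C_mul, add_mul, one_mul, map_add]
  cases n with
  | zero =>
    rw [coeff_zero_X_mul, coeff_derivative, hc, hc, R_succ]
    push_cast
    field_simp
    ring
  | succ n =>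
    rw [coeff_succ_X_mul, coeff_derivative, coeff_derivative, hc, hc, R_succ p D (n + 1)]
    push_cast
    have : (n : ℚ) + 1 + 1 ≠ 0 := by positivity
    field_simp
    ring

lemma eq_one_of_deriv {F : ℚ⟦X⟧} (h : d⁄dX ℚ F = 0) (h0 : constantCoeff F = 1) : F = 1 := by
  apply PowerSeries.derivative.ext
  · rw [h]
    simp
  · rw [h0]
    simp

lemma r_inv (p : ℤ) (D : ℕ) (hD : 0 < D) : R p D * R (-p) D = 1 := by
  have hD0 : (D : ℚ) ≠ 0 := by exact_mod_cast hD.ne'
  apply eq_one_of_deriv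
  · have h1 := rde p D hD
    have h2 := rde (-p) D hD
    have h3 : C (D : ℚ) * ((1 - X) * d⁄dX ℚ (R p D * R (-p) D)) = 0 := by
      rw [Derivation.leibniz]
      simp only [smul_eq_mul]
      push_cast at h2
      rw [map_neg] at h2
      linear_combination R (-p) D * h1 + R p D * h2
    rcases mul_eq_zero.1 h3 with h4 | h4
    · rw [← map_zero (C (R := ℚ))] at h4
      exact absurd (C_injective h4) hD0
    · rcases mul_eq_zero.1 h4 with h5 | h5
      · have := congrArg (constantCoeff (R := ℚ)) h5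
        simp at this
      · exact h5
  · rw [map_mul, ← coeff_zero_eq_constantCoeff_apply, ← coeff_zero_eq_constantCoeff_apply, R_zero, R_zero, one_mul]

lemma rp_inv (p : ℤ) (D : ℕ) (hD : 0 < D) : Rp p D * Rp (-p) D = 1 := by
  have hD0 : (D : ℚ) ≠ 0 := by exact_mod_cast hD.ne'
  apply eq_one_of_deriv
  · have h1 := rpde p D hD
    have h2 := rpde (-p) D hD
    have h3 : C (D : ℚ) * ((1 + X) * d⁄dX ℚ (Rp p D * Rp (-p) D)) = 0 := by
      rw [Derivation.leibniz]
      simp only [smul_eq_mul]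
      push_cast at h2
      rw [map_neg] at h2
      linear_combination Rp (-p) D * h1 + Rp p D * h2
    rcases mul_eq_zero.1 h3 with h4 | h4
    · rw [← map_zero (C (R := ℚ))] at h4
      exact absurd (C_injective h4) hD0
    · rcases mul_eq_zero.1 h4 with h5 | h5
      · have := congrArg (constantCoeff (R := ℚ)) h5
        simp at this
      · exact h5
  · have h0 : ∀ p, coeff 0 (Rp p D) = 1 := fun p => by
      rw [Rp, had, coeff_mk, coeff_mk, R_zero, pow_zero, one_mul]
    rw [map_mul, ← coeff_zero_eq_constantCoeff_apply, ← coeff_zero_eq_constantCoeff_apply, h0, h0, one_mul]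

lemma sd_R (p : ℤ) (D : ℕ) (hD : 0 < D) : SDc (R p D) := (NIc_R p D hD).SDc

lemma sd_Rp (p : ℤ) (D : ℕ) (hD : 0 < D) : SDc (Rp p D) := SDc_had (sd_R p D hD) (SDc_geo (-1))

/-- `W` -/
noncomputable def Wf (D : ℕ) (p q : ℤ) : ℚ⟦X⟧ := Rp p D * R q D

lemma wde {D : ℕ} (hD : 0 < D) (p q : ℤ) : C (D : ℚ) * ((1 - X ^ 2) * d⁄dX ℚ (Wf D p q)) =
    (C ((q : ℚ) - p) + C ((p : ℚ) + q) * X) * Wf D p q := by
  unfold Wf
  rw [Derivation.leibniz, map_sub, map_add]
  simp only [smul_eq_mul]
  linear_combination (1 - X) * R q D * rpde p D hD + (1 + X) * Rp p D * rde q D hD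

lemma wv {D : ℕ} (hD : 0 < D) (p q : ℤ) : Wf D p q * Wf D (-p) (-q) = 1 := by
  unfold Wf
  linear_combination R q D * R (-q) D * rp_inv p D hD + r_inv q D hD

/-- the geometric series -/
noncomputable def gm (r : ℚ) : ℚ⟦X⟧ := PowerSeries.mk fun m => r ^ m

lemma gm_mul (r : ℚ) : (1 - C r * X) * gm r = 1 := by
  ext n
  rw [sub_mul, one_mul, map_sub, mul_assoc, coeff_C_mul]
  cases n with
  | zero =>
    rw [coeff_zero_X_mul, gm, coeff_mk, pow_zero]
    simp
  | succ n =>
    rw [coeff_succ_X_mul, gm, coeff_mk, coeff_mk, pow_succ, coeff_one, if_neg (by omega)]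
    ring

/-- the integrand -/
noncomputable def jf (D : ℕ) (p q : ℤ) : ℚ⟦X⟧ := C 2 * Wf D (-p) (-q) * (gm (-1) * gm 1)

/-- the integral -/
noncomputable def Jf (D : ℕ) (p q : ℤ) : ℚ⟦X⟧ := had (X * jf D p q) lgs

lemma jde (D : ℕ) (p q : ℤ) : d⁄dX ℚ (Jf D p q) = jf D p q := by
  ext n
  rw [coeff_derivative, Jf, had, coeff_mk, coeff_succ_X_mul, lgs, coeff_mk, if_neg (by omega)]
  push_cast
  have : (n : ℚ) + 1 ≠ 0 := by positivity
  field_simp

lemma jmul {D : ℕ} (hD : 0 < D) (p q : ℤ) : (1 - X ^ 2) * (Wf D p q * jf D p q) = C 2 := by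
  have h1 := gm_mul 1
  have h2 := gm_mul (-1)
  rw [map_one] at h1
  rw [map_neg, map_one] at h2
  unfold jf
  linear_combination (C 2 * (1 - X ^ 2) * gm (-1) * gm 1) * wv hD p q + C 2 * (1 + X) * gm (-1) * h1 + C 2 * h2

/-- the inhomogeneous solution -/
noncomputable def gf (D : ℕ) (p q : ℤ) : ℚ⟦X⟧ := Wf D p q * Jf D p q

lemma gde {D : ℕ} (hD : 0 < D) (p q : ℤ) : C (D : ℚ) * ((1 - X ^ 2) * d⁄dX ℚ (gf D p q)) =
    C (2 * (D : ℚ)) + (C ((q : ℚ) - p) + C ((p : ℚ) + q) * X) * gf D p q := by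
  unfold gf
  rw [Derivation.leibniz, jde, map_mul]
  simp only [smul_eq_mul]
  linear_combination Jf D p q * wde hD p q + C (D : ℚ) * jmul hD p q

lemma sd_Wf {D : ℕ} (hD : 0 < D) (p q : ℤ) : SDc (Wf D p q) := (sd_Rp p D hD).mul (sd_R q D hD)

lemma sd_C2 : SDc (C 2 : ℚ⟦X⟧) := by
  have := SDc.int 2
  have e : ((2 : ℤ) : ℚ⟦X⟧) = C 2 := by rw [← map_intCast (C (R := ℚ))]; norm_num
  rwa [e] at this

lemma sd_jf {D : ℕ} (hD : 0 < D) (p q : ℤ) : SDc (jf D p q) :=
  (sd_C2.mul (sd_Wf hD _ _)).mul ((SDc_geo (-1)).mul (SDc_geo 1))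

lemma sd_gf {D : ℕ} (hD : 0 < D) (p q : ℤ) : SDc (gf D p q) :=
  (sd_Wf hD p q).mul (SDc_had (SDc.X.mul (sd_jf hD p q)) SDc_lgs)

lemma sd_zero : SDc (0 : ℚ⟦X⟧) := by
  have := SDc.int 0
  simpa using this

lemma sd_neg {f : ℚ⟦X⟧} (hf : SDc f) : SDc (-f) := by
  have := (SDc.int (-1)).mul hf
  simpa using this

lemma qmul (P Q : Polynomial ℤ) : ps (P * Q) = ps P * ps Q := by unfold ps; rw [Polynomial.map_mul, Polynomial.coe_mul]

lemma qadd (P Q : Polynomial ℤ) : ps (P + Q) = ps P + ps Q := by unfold ps; rw [Polynomial.map_add, Polynomial.coe_add]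

lemma qsub (P Q : Polynomial ℤ) : ps (P - Q) = ps P - ps Q := by unfold ps; rw [Polynomial.map_sub, Polynomial.coe_sub]

lemma qX : ps Polynomial.X = X := by unfold ps; rw [Polynomial.map_X, Polynomial.coe_X]

lemma qone : ps 1 = 1 := by unfold ps; rw [Polynomial.map_one, Polynomial.coe_one]

lemma qzero : ps 0 = 0 := by unfold ps; rw [Polynomial.map_zero, Polynomial.coe_zero]

lemma qC (z : ℤ) : ps (Polynomial.C z) = C (z : ℚ) := by unfold ps; rw [Polynomial.map_C, Polynomial.coe_C]; rfl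

/-- the solutions -/
noncomputable def ys {k : ℕ} (D : ℕ) (p q : Fin k → ℤ) : Fin (k + 1) → Fin (k + 1) → ℚ⟦X⟧ :=
  Fin.cons (Fin.cons 1 fun j => gf D (p j) (q j)) fun i => Fin.cons 0 fun j => if i = j then Wf D (p j) (q j) else 0

/-- the inverse matrix -/
noncomputable def ws {k : ℕ} (D : ℕ) (p q : Fin k → ℤ) : Fin (k + 1) → Fin (k + 1) → ℚ⟦X⟧ :=
  Fin.cons (Fin.cons 1 fun j => -(gf D (p j) (q j) * Wf D (-p j) (-q j)))
    fun i => Fin.cons 0 fun j => if i = j then Wf D (-p j) (-q j) else 0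

theorem gch : S_GCH := by
  classical
  intro k D p q hD
  refine ⟨2, gc_of (y := ys D p q) (w := ws D p q) ?_ ?_ ?_ ?_ ?_ ?_⟩
  · unfold TH
    refine (Polynomial.natDegree_C_mul_le _ _).trans ?_
    compute_degree
  · intro i j
    refine Fin.cases ?_ (fun j => ?_) j
    · simp [AH]
    · refine Fin.cases ?_ (fun i => ?_) i
      · simp only [AH, Fin.cons_succ, Fin.cons_zero]
        exact (Polynomial.natDegree_C _).le.trans (by norm_num)
      · simp only [AH, Fin.cons_succ]
        split_ifs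
        · exact (Polynomial.natDegree_linear_le (a := p j + q j) (b := q j - p j)).trans (by norm_num) |> fun h => by
            rwa [add_comm] at h
        · simp
  · intro i j
    have hpT : ps (TH D) = C (D : ℚ) * (1 - X ^ 2) := by
      unfold TH
      rw [pow_two, qmul, qC, qsub, qone, qmul, qX, Int.cast_natCast, pow_two]
    rw [hpT, mul_assoc]
    refine Fin.cases ?_ (fun j => ?_) j
    · have h1 : ∀ l, ps (AH D p q 0 l) = 0 := fun l => by
        unfold ps AH
        simp
      simp only [h1, mul_zero, Finset.sum_const_zero]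
      refine Fin.cases ?_ (fun i => ?_) i
      · simp [ys]
      · simp [ys]
    · have h1 : ps (AH D p q j.succ 0) = C (2 * (D : ℚ)) := by
        unfold AH
        rw [Fin.cons_succ, Fin.cons_zero, qC]
        push_cast
        rfl
      have h2 : ∀ l, ps (AH D p q j.succ (Fin.succ l)) =
          if j = l then C ((q j : ℚ) - p j) + C ((p j : ℚ) + q j) * X else 0 := fun l => by
        unfold AH
        simp only [Fin.cons_succ]
        split_ifs
        · rw [qadd, qmul, qX, qC, qC]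
          push_cast
          rfl
        · exact qzero
      rw [Fin.sum_univ_succ, h1]
      simp only [h2, mul_ite, mul_zero, Finset.sum_ite_eq, Finset.mem_univ, if_true]
      refine Fin.cases ?_ (fun i => ?_) i
      · simp only [ys, Fin.cons_zero, Fin.cons_succ]
        rw [gde hD]
        ring
      · simp only [ys, Fin.cons_zero, Fin.cons_succ]
        split_ifs
        · rw [wde hD]
          ring
        · simp
  · intro i j
    rw [Fin.sum_univ_succ]
    refine Fin.cases ?_ (fun i => ?_) i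
    · refine Fin.cases ?_ (fun j => ?_) j
      · simp [ws, ys]
      · simp only [ws, ys, Fin.cons_zero, Fin.cons_succ, mul_ite, mul_zero, Finset.sum_ite_eq', Finset.mem_univ, if_true]
        rw [if_neg (Fin.succ_ne_zero j).symm]
        linear_combination (-gf D (p j) (q j)) * wv hD (p j) (q j)
    · refine Fin.cases ?_ (fun j => ?_) j
      · simp [ws, ys]
      · simp only [ws, ys, Fin.cons_zero, Fin.cons_succ, mul_ite, mul_zero, Finset.sum_ite_eq', Finset.mem_univ, if_true,
          zero_mul, zero_add, Fin.succ_inj]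
        split_ifs with h
        · rw [mul_comm]
          exact wv hD _ _
        · simp
  · intro i j
    refine Fin.cases ?_ (fun i => ?_) i
    · refine Fin.cases ?_ (fun j => ?_) j
      · simpa [ys] using SDc.one
      · simpa [ys] using sd_gf hD (p j) (q j)
    · refine Fin.cases ?_ (fun j => ?_) j
      · simpa [ys] using sd_zero
      · simp only [ys, Fin.cons_succ]
        split_ifs
        · exact sd_Wf hD _ _
        · exact sd_zero
  · intro i j
    refine Fin.cases ?_ (fun i => ?_) i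
    · refine Fin.cases ?_ (fun j => ?_) j
      · simpa [ws] using SDc.one
      · simpa [ws] using sd_neg ((sd_gf hD (p j) (q j)).mul (sd_Wf hD (-p j) (-q j)))
    · refine Fin.cases ?_ (fun j => ?_) j
      · simpa [ws] using sd_zero
      · simp only [ws, Fin.cons_succ]
        split_ifs
        · exact sd_Wf hD _ _
        · exact sd_zero

end Pool.Agent.Q224.IB
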