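import Pool.Agent.Q189.IB.Stm

/-!
# Project IB of helper189: Galochkin's condition and the change of variable `x = (1 + t)/2`
-/

set_option autoImplicit false

open Pool.Agent.Q189.IB

namespace Pool.Agent.Q224.IB

open Pool.Agent.Y113 (IP Bq Bq.pow Bq.mono Bq.sum Bq.C_mul)
open Pool.Agent.Y113.HGG (ah ah_zero ah_succ tq aq)
open Pool.Agent.Y124.GE (GC)

/-- the linear polynomial `2 x - 1` -/
noncomputable def lx : Polynomial ℚ := Polynomial.C 2 * Polynomial.X - 1

lemma bq_lx : Bq 1 2 lx := by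
  constructor
  · unfold lx
    have : (Polynomial.C (2 : ℚ) * Polynomial.X - 1 : Polynomial ℚ) = Polynomial.C 2 * Polynomial.X + Polynomial.C (-1) := by
      rw [Polynomial.C_neg, Polynomial.C_1]
      ring
    rw [this]
    exact Polynomial.natDegree_linear_le
  · intro l
    unfold lx
    rw [Polynomial.coeff_sub, Polynomial.coeff_C_mul, Polynomial.coeff_X, Polynomial.coeff_one]
    split_ifs with h1 h2 h2
    · omega
    · norm_num
    · norm_num
    · norm_num

lemma comp_C_mul (c : ℚ) (P : Polynomial ℚ) : (Polynomial.C c * P).comp lx = Polynomial.C c * P.comp lx := by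
  rw [Polynomial.mul_comp, Polynomial.C_comp]

lemma deriv_comp (P : Polynomial ℚ) : (Polynomial.derivative P).comp lx =
    Polynomial.C (1 / 2) * Polynomial.derivative (P.comp lx) := by
  rw [Polynomial.derivative_comp]
  have h1 : Polynomial.derivative lx = Polynomial.C 2 := by
    unfold lx
    rw [Polynomial.derivative_sub, Polynomial.derivative_C_mul, Polynomial.derivative_X, Polynomial.derivative_one]
    simp
  rw [h1, ← mul_assoc, ← Polynomial.C_mul]
  norm_num

lemma sum_comp {ι : Type*} (s : Finset ι) (F : ι → Polynomial ℚ) : (∑ i ∈ s, F i).comp lx = ∑ i ∈ s, (F i).comp lx :=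
  Polynomial.sum_comp s F lx

lemma ah_comp {n : ℕ} {T T' : Polynomial ℤ} {A A' : Fin n → Fin n → Polynomial ℤ}
    (hT : (tq T').comp lx = Polynomial.C 4 * tq T) (hA : ∀ i j, (aq A' i j).comp lx = Polynomial.C 2 * aq A i j) (s : ℕ)
    (i j : Fin n) : (ah T' A' s i j).comp lx = Polynomial.C (2 ^ s) * ah T A s i j := by
  induction s generalizing i j with
  | zero =>
    rw [ah_zero, ah_zero]
    split_ifs <;> simp
  | succ s ih =>
    rw [ah_succ, ah_succ, comp_C_mul, Polynomial.add_comp, Polynomial.sub_comp, Polynomial.mul_comp, comp_C_mul,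
      Polynomial.mul_comp, sum_comp, deriv_comp, deriv_comp, hT, ih]
    have h1 : ∀ l, (aq A' l j * ah T' A' s i l).comp lx =
        Polynomial.C (2 ^ (s + 1)) * (aq A l j * ah T A s i l) := fun l => by
      rw [Polynomial.mul_comp, hA, ih, pow_succ, Polynomial.C_mul]
      ring
    rw [Finset.sum_congr rfl fun l _ => h1 l, ← Finset.mul_sum, Polynomial.derivative_C_mul, Polynomial.derivative_C_mul]
    have h2 : (Polynomial.C (2 ^ (s + 1)) : Polynomial ℚ) = Polynomial.C (2 ^ s) * Polynomial.C 2 := by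
      rw [pow_succ, Polynomial.C_mul]
    have h3 : (Polynomial.C 4 : Polynomial ℚ) = Polynomial.C 2 * Polynomial.C 2 := by
      rw [← Polynomial.C_mul]
      norm_num
    have h4 : (Polynomial.C (1 / 2) * Polynomial.C 2 : Polynomial ℚ) = 1 := by
      rw [← Polynomial.C_mul]
      norm_num
    rw [h2, h3]
    linear_combination (Polynomial.C (1 / ((s : ℚ) + 1)) * (Polynomial.C 2 * tq T * (Polynomial.C (2 ^ s) *
      Polynomial.derivative (ah T A s i j)) - Polynomial.C (s : ℚ) * (Polynomial.C 2 * Polynomial.derivative (tq T) *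
      (Polynomial.C (2 ^ s) * ah T A s i j)))) * h4

lemma bq_comp {n : ℕ} {A : ℝ} {P : Polynomial ℚ} (h : Bq n A P) : Bq n ((n + 1) * (A * 4 ^ n)) (P.comp lx) := by
  have hA0 : 0 ≤ A := (abs_nonneg _).trans (h.2 0)
  have h1 : P.comp lx = ∑ l ∈ Finset.range (n + 1), Polynomial.C (P.coeff l) * lx ^ l := by
    unfold Polynomial.comp
    exact Polynomial.eval₂_eq_sum_range' _ (Nat.lt_succ_of_le h.1) _
  rw [h1]
  have h2 := Bq.sum (n := n) (A := A * 4 ^ n) (Finset.range (n + 1)) (f := fun l => Polynomial.C (P.coeff l) * lx ^ l) ?_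
  · refine h2.mono le_rfl ?_
    rw [Finset.card_range]
    push_cast
    exact le_rfl
  · intro l hl
    have hl' : l ≤ n := Nat.lt_succ_iff.1 (Finset.mem_range.1 hl)
    have h3 := (bq_lx.pow l).C_mul (h.2 l)
    refine h3.mono (by omega) ?_
    refine mul_le_mul_of_nonneg_left ?_ hA0
    push_cast
    norm_num
    exact pow_le_pow_right₀ (by norm_num) hl'

lemma ip_comp {g : ℕ} {P : Polynomial ℚ} (h : IP g P) : IP g (P.comp lx) := by
  obtain ⟨Q, hQ⟩ := h
  refine ⟨Q.comp (Polynomial.C 2 * Polynomial.X - 1), ?_⟩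
  have h1 : (Polynomial.C 2 * Polynomial.X - 1 : Polynomial ℤ).map (Int.castRingHom ℚ) = lx := by
    unfold lx
    rw [Polynomial.map_sub, Polynomial.map_mul, Polynomial.map_C, Polynomial.map_X, Polynomial.map_one]
    rfl
  rw [Polynomial.map_comp, hQ, ← comp_C_mul, h1]

theorem gcx_of {n N : ℕ} {T T' : Polynomial ℤ} {A A' : Fin n → Fin n → Polynomial ℤ}
    (hT : (tq T').comp lx = Polynomial.C 4 * tq T) (hA : ∀ i j, (aq A' i j).comp lx = Polynomial.C 2 * aq A i j)
    (h : GC N T' A') : GC N T A := by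
  obtain ⟨M, hM, hG⟩ := h
  have hM0 : 0 < M := by linarith
  refine ⟨2 * 8 ^ N * M, ?_, fun k => ?_⟩
  · have : (1 : ℝ) ≤ 8 ^ N := one_le_pow₀ (by norm_num)
    nlinarith
  obtain ⟨g, hg0, hg, hG'⟩ := hG k
  refine ⟨2 ^ k * g, by positivity, ?_, fun s hs i j => ?_⟩
  · push_cast
    calc (2 : ℝ) ^ k * g ≤ 2 ^ (k + 1) * M ^ (k + 1) :=
          mul_le_mul (pow_le_pow_right₀ (by norm_num) (by omega)) hg (by positivity) (by positivity)
      _ = (2 * M) ^ (k + 1) := by rw [mul_pow]
      _ ≤ (2 * 8 ^ N * M) ^ (k + 1) := by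
        refine pow_le_pow_left₀ (by positivity) ?_ _
        have : (1 : ℝ) ≤ 8 ^ N := one_le_pow₀ (by norm_num)
        nlinarith
  obtain ⟨h1, h2⟩ := hG' s hs i j
  have hah : ah T A s i j = Polynomial.C ((1 / 2) ^ s) * (ah T' A' s i j).comp lx := by
    rw [ah_comp hT hA, ← mul_assoc, ← Polynomial.C_mul, ← mul_pow]
    norm_num
  constructor
  · obtain ⟨Q, hQ⟩ := ip_comp h1
    refine ⟨Polynomial.C (2 ^ (k - s)) * Q, ?_⟩
    rw [Polynomial.map_mul, hQ, hah, Polynomial.map_C]
    rw [← mul_assoc, ← mul_assoc, ← Polynomial.C_mul, ← Polynomial.C_mul]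
    congr 2
    push_cast
    have h3 : (2 : ℚ) ^ k = 2 ^ (k - s) * 2 ^ s := by rw [← pow_add]; congr 1; omega
    rw [h3, one_div, inv_pow]
    have h4 : (2 : ℚ) ^ s ≠ 0 := by positivity
    simp
    field_simp
  · rw [hah]
    have h3 := (bq_comp h2).C_mul (c := (1 / 2) ^ s) (B := 1) (by
      push_cast
      rw [abs_of_nonneg (by positivity)]
      exact pow_le_one₀ (by norm_num) (by norm_num))
    refine h3.mono le_rfl ?_
    rw [one_mul]
    have h4 : (((N * s : ℕ) : ℝ) + 1) ≤ 2 ^ (N * s) := by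
      exact_mod_cast Nat.succ_le_of_lt (Nat.lt_two_pow_self (n := N * s))
    calc (((N * s : ℕ) : ℝ) + 1) * (M ^ (k + 1) * 4 ^ (N * s)) ≤ 2 ^ (N * s) * (M ^ (k + 1) * 4 ^ (N * s)) :=
          mul_le_mul_of_nonneg_right h4 (by positivity)
      _ = 8 ^ (N * s) * M ^ (k + 1) := by
        rw [show (8 : ℝ) = 2 * 4 by norm_num, mul_pow]
        ring
      _ ≤ 8 ^ (N * (k + 1)) * M ^ (k + 1) :=
        mul_le_mul_of_nonneg_right (pow_le_pow_right₀ (by norm_num) (Nat.mul_le_mul_left _ (by omega))) (by positivity)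
      _ = (8 ^ N * M) ^ (k + 1) := by rw [mul_pow, ← pow_mul]
      _ ≤ (2 * 8 ^ N * M) ^ (k + 1) := by
        refine pow_le_pow_left₀ (by positivity) ?_ _
        have : (0 : ℝ) < 8 ^ N * M := by positivity
        linarith

theorem gcx : S_GCX := by
  intro k D p q hD N h
  refine ⟨N, gcx_of (T' := TH D) (A' := fun a b => AH D p q b a) ?_ ?_ h⟩
  · unfold tq TH TT lx
    simp only [Polynomial.map_mul, Polynomial.map_sub, Polynomial.map_one, Polynomial.map_pow, Polynomial.map_X,
      Polynomial.map_C, Polynomial.mul_comp, Polynomial.sub_comp, Polynomial.one_comp, Polynomial.pow_comp,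
      Polynomial.X_comp, Polynomial.C_comp]
    have h3 : (Polynomial.C 4 : Polynomial ℚ) = Polynomial.C 2 * Polynomial.C 2 := by
      rw [← Polynomial.C_mul]
      norm_num
    have h4 : (Polynomial.C 2 : Polynomial ℚ) = 2 := rfl
    rw [h3, h4]
    ring
  · intro i j
    unfold aq
    show ((AH D p q i j).map (Int.castRingHom ℚ)).comp lx = Polynomial.C 2 * (AA D p q i j).map (Int.castRingHom ℚ)
    have h4 : (Polynomial.C 2 : Polynomial ℚ) = 2 := rfl
    refine Fin.cases ?_ (fun i => ?_) i
    · simp [AH, AA]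
    · refine Fin.cases ?_ (fun j => ?_) j
      · simp only [AH, AA, Fin.cons_succ, Fin.cons_zero, Polynomial.map_C, Polynomial.C_comp]
        rw [← Polynomial.C_mul]
        congr 1
        simp
      · simp only [AH, AA, Fin.cons_succ]
        split_ifs
        · simp only [Polynomial.map_add, Polynomial.map_mul, Polynomial.map_C, Polynomial.map_X, Polynomial.add_comp,
            Polynomial.mul_comp, Polynomial.C_comp, Polynomial.X_comp]
          unfold lx
          rw [h4]
          simp only [eq_intCast, Int.cast_sub, Int.cast_add, Int.cast_neg, Polynomial.C_sub, Polynomial.C_add,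
            Polynomial.C_neg]
          ring
        · simp

end Pool.Agent.Q224.IB
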