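import Pool.Agent.Q189.IB.Stm

/-!
# Project IB of helper189: the fundamental matrix at the point `x = 0`
-/

set_option autoImplicit false

open PowerSeries Pool.Agent.Q189.IB

namespace Pool.Agent.Q224.IB

open Pool.Agent.Y113 (ps SDc)
open Pool.Agent.Y124.GE (R R_succ R_zero NIc_R NIc.SDc SDc_data)
open Pool.Agent.Y120.GH (QU0 cx cx_ps cx_der norm_coeff_cx derivative_expand)

lemma rde' (p : ℤ) (D : ℕ) (hD : 0 < D) : C (D : ℚ) * ((1 - X) * d⁄dX ℚ (R p D)) = C (p : ℚ) * R p D := by
  have hD0 : (D : ℚ) ≠ 0 := by exact_mod_cast hD.ne'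
  ext n
  rw [coeff_C_mul, coeff_C_mul, sub_mul, one_mul, map_sub]
  cases n with
  | zero =>
    rw [coeff_zero_X_mul, coeff_derivative, R_succ]
    push_cast
    field_simp
    ring
  | succ n =>
    rw [coeff_succ_X_mul, coeff_derivative, coeff_derivative, R_succ p D (n + 1)]
    push_cast
    have : (n : ℚ) + 1 + 1 ≠ 0 := by positivity
    field_simp
    ring

/-- `f(s^D)` -/
noncomputable def EE {D : ℕ} (hD : D ≠ 0) : ℚ⟦X⟧ →+* PowerSeries ℂ := (expand D hD : PowerSeries ℂ →ₐ[ℂ] PowerSeries ℂ).toRingHom.comp cx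

lemma EE_apply {D : ℕ} (hD : D ≠ 0) (f : ℚ⟦X⟧) : EE hD f = expand D hD (cx f) := rfl

lemma EE_X {D : ℕ} (hD : D ≠ 0) : EE hD X = X ^ D := by
  rw [EE_apply, cx, map_X, expand_X]

lemma EE_C {D : ℕ} (hD : D ≠ 0) (c : ℚ) : EE hD (C c) = C (c : ℂ) := by
  rw [EE_apply, Pool.Agent.Y120.GH.cx_C, expand_C]

lemma EE_nat {D : ℕ} (hD : D ≠ 0) (c : ℕ) : EE hD (C (c : ℚ)) = (c : PowerSeries ℂ) := by
  rw [EE_C]
  simp

lemma EE_int {D : ℕ} (hD : D ≠ 0) (c : ℤ) : EE hD (C (c : ℚ)) = (c : PowerSeries ℂ) := by
  rw [EE_C]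
  simp

lemma EE_der {D : ℕ} (hD : D ≠ 0) (f : ℚ⟦X⟧) : X * PowerSeries.derivative ℂ (EE hD f) =
    (D : PowerSeries ℂ) * X ^ D * EE hD (d⁄dX ℚ f) := by
  rw [EE_apply, EE_apply, derivative_expand, cx_der]
  have h1 : (X : PowerSeries ℂ) ^ D = X * X ^ (D - 1) := by
    rw [← pow_succ', Nat.sub_add_cancel (Nat.pos_of_ne_zero hD)]
  rw [h1]
  ring

lemma step {D : ℕ} (hD : D ≠ 0) (T F : ℚ⟦X⟧) (a M : ℕ) :
    EE hD T * (X * PowerSeries.derivative ℂ (X ^ a * EE hD F) - (M : PowerSeries ℂ) * (X ^ a * EE hD F)) =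
      X ^ a * (((a : PowerSeries ℂ) - (M : PowerSeries ℂ)) * EE hD T * EE hD F + (D : PowerSeries ℂ) * X ^ D * EE hD (T * d⁄dX ℚ F)) := by
  have h1 : X * PowerSeries.derivative ℂ (X ^ a : PowerSeries ℂ) = (a : PowerSeries ℂ) * X ^ a := by
    rw [Derivation.leibniz_pow, derivative_X]
    simp only [smul_eq_mul, nsmul_eq_mul, mul_one]
    cases a with
    | zero => simp
    | succ a =>
      rw [Nat.add_sub_cancel, pow_succ]
      ring
  rw [Derivation.leibniz, map_mul]
  simp only [smul_eq_mul]
  linear_combination (EE hD T * EE hD F) * h1 + EE hD T * X ^ a * EE_der hD F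

lemma bound {D : ℕ} (hD : D ≠ 0) {F : ℚ⟦X⟧} (hF : SDc F) : ∃ K : ℝ, 1 ≤ K ∧ ∀ a m,
    ‖coeff m (X ^ a * EE hD F)‖ ≤ K ^ (m + 1) := by
  obtain ⟨K, hK, h1, _⟩ := SDc_data hF
  refine ⟨K, hK, fun a m => ?_⟩
  have h0 : (0 : ℝ) ≤ K ^ (m + 1) := by positivity
  rw [coeff_X_pow_mul', EE_apply]
  split_ifs with h2
  · rw [coeff_expand]
    split_ifs with h3
    · rw [norm_coeff_cx]
      refine (h1 _).trans (pow_le_pow_right₀ hK ?_)
      have : (m - a) / D ≤ m - a := Nat.div_le_self _ _
      omega
    · simpa using h0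
  · simpa using h0

lemma qmul' (P Q : Polynomial ℤ) : ps (P * Q) = ps P * ps Q := by unfold ps; rw [Polynomial.map_mul, Polynomial.coe_mul]

lemma qadd' (P Q : Polynomial ℤ) : ps (P + Q) = ps P + ps Q := by unfold ps; rw [Polynomial.map_add, Polynomial.coe_add]

lemma qsub' (P Q : Polynomial ℤ) : ps (P - Q) = ps P - ps Q := by unfold ps; rw [Polynomial.map_sub, Polynomial.coe_sub]

lemma qX' : ps Polynomial.X = X := by unfold ps; rw [Polynomial.map_X, Polynomial.coe_X]

lemma qone' : ps 1 = 1 := by unfold ps; rw [Polynomial.map_one, Polynomial.coe_one]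

lemma qzero' : ps 0 = 0 := by unfold ps; rw [Polynomial.map_zero, Polynomial.coe_zero]

lemma qC' (z : ℤ) : ps (Polynomial.C z) = C (z : ℚ) := by unfold ps; rw [Polynomial.map_C, Polynomial.coe_C]; rfl

/-- the matrix -/
noncomputable def ph {k D : ℕ} (hD : D ≠ 0) (p q : Fin k → ℤ) (M : ℕ) : Fin (k + 1) → Fin (k + 1) → PowerSeries ℂ :=
  Fin.cons (Fin.cons (X ^ M) fun _ => 0) fun i => Fin.cons (X ^ M * EE hD (hs ((p i : ℚ) / D) ((q i : ℚ) / D))) fun j =>
    if i = j then X ^ (M - (p i).toNat) * EE hD (R (q i) D) else 0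

theorem qu (h1 : S_ODE) (h2 : S_SD) : S_QU := by
  classical
  intro k D p q hD hp
  have hD0 : D ≠ 0 := hD.ne'
  have hDq : (D : ℚ) ≠ 0 := by exact_mod_cast hD0
  set M : ℕ := ∑ j, (p j).toNat with hM
  have hMj : ∀ j, (p j).toNat ≤ M := fun j =>
    Finset.single_le_sum (f := fun j => (p j).toNat) (fun _ _ => Nat.zero_le _) (Finset.mem_univ j)
  have hu : ∀ j, (0 : ℚ) < (p j : ℚ) / D := fun j => div_pos (by exact_mod_cast hp j) (by exact_mod_cast hD)
  -- the bounds
  obtain ⟨K, hK⟩ : ∃ K : ℝ, ∀ i j m, ‖coeff m (ph hD0 p q M i j)‖ ≤ K ^ (m + 1) := by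
    choose K1 hK1 hK1' using fun j => bound hD0 (h2 ((p j : ℚ) / D) ((q j : ℚ) / D) (hu j))
    choose K2 hK2 hK2' using fun j => bound hD0 ((NIc_R (q j) D hD).SDc)
    have hnn1 : 0 ≤ ∑ j, K1 j := Finset.sum_nonneg fun j _ => by linarith [hK1 j]
    have hnn2 : 0 ≤ ∑ j, K2 j := Finset.sum_nonneg fun j _ => by linarith [hK2 j]
    have hs1 : ∀ j, K1 j ≤ ∑ j, K1 j := fun j =>
      Finset.single_le_sum (f := K1) (fun i _ => by linarith [hK1 i]) (Finset.mem_univ j)
    have hs2 : ∀ j, K2 j ≤ ∑ j, K2 j := fun j =>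
      Finset.single_le_sum (f := K2) (fun i _ => by linarith [hK2 i]) (Finset.mem_univ j)
    refine ⟨1 + ∑ j, K1 j + ∑ j, K2 j, fun i j m => ?_⟩
    have hge1 : (1 : ℝ) ≤ 1 + ∑ j, K1 j + ∑ j, K2 j := by linarith
    have hpos : (0 : ℝ) ≤ (1 + ∑ j, K1 j + ∑ j, K2 j) ^ (m + 1) := by positivity
    refine Fin.cases ?_ (fun i => ?_) i
    · refine Fin.cases ?_ (fun j => ?_) j
      · simp only [ph, Fin.cons_zero]
        rw [coeff_X_pow]
        split_ifs
        · simpa using one_le_pow₀ hge1
        · simpa using hpos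
      · simpa [ph] using hpos
    · refine Fin.cases ?_ (fun j => ?_) j
      · simp only [ph, Fin.cons_zero, Fin.cons_succ]
        refine (hK1' i M m).trans (pow_le_pow_left₀ (by linarith [hK1 i]) ?_ _)
        linarith [hs1 i]
      · simp only [ph, Fin.cons_succ]
        split_ifs
        · refine (hK2' i _ m).trans (pow_le_pow_left₀ (by linarith [hK2 i]) ?_ _)
          linarith [hs2 i]
        · simpa using hpos
  have hK0 : 0 ≤ K := by
    have h := (norm_nonneg _).trans (hK 0 0 0)
    simpa using h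
  refine ⟨D, hD0, M, K, fun i j => Polynomial.C (ph hD0 p q M i j), ?_, ?_, ?_⟩
  · intro i j k' m
    rw [Polynomial.coeff_C]
    split_ifs
    · exact hK i j m
    · simpa using pow_nonneg hK0 (m + 1)
  · intro i j k'
    rcases Nat.eq_zero_or_pos k' with hk | hk
    · subst hk
      simp only [Polynomial.coeff_C_zero, Polynomial.coeff_C_succ, mul_zero, add_zero]
      rw [← cx_ps, ← EE_apply]
      simp only [← cx_ps, ← EE_apply]
      have hT : ps (TT D) = C (D : ℚ) * (X * (1 - X)) := by
        unfold TT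
        rw [qmul', qC', qmul', qsub', qone', qX', Int.cast_natCast]
      refine Fin.cases ?_ (fun i => ?_) i
      · have hz : ∀ l, ps (AA D p q 0 l) = 0 := fun l => by
          simp only [AA, Fin.cons_zero]
          exact qzero'
        simp only [hz, map_zero, zero_mul, Finset.sum_const_zero, mul_zero]
        refine Fin.cases ?_ (fun j => ?_) j
        · have h3 := step hD0 (ps (TT D)) 1 M M
          simp only [ph, Fin.cons_zero]
          rw [map_one (EE hD0), mul_one] at h3
          rw [h3]
          simp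
        · simp [ph]
      · have e1 : ps (AA D p q i.succ 0) = C (D : ℚ) := by
          unfold AA
          rw [Fin.cons_succ, Fin.cons_zero, qC', Int.cast_natCast]
        have e2 : ∀ l, ps (AA D p q i.succ (Fin.succ l)) =
            if i = l then C (-(p i : ℚ)) + C ((p i : ℚ) + q i) * X else 0 := fun l => by
          unfold AA
          simp only [Fin.cons_succ]
          split_ifs
          · rw [qadd', qmul', qX', qC', qC']
            push_cast
            rfl
          · exact qzero'
        rw [Fin.sum_univ_succ, e1]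
        simp only [e2]
        have e3 : ∀ l, EE hD0 (if i = l then C (-(p i : ℚ)) + C ((p i : ℚ) + q i) * X else 0) =
            if i = l then EE hD0 (C (-(p i : ℚ)) + C ((p i : ℚ) + q i) * X) else 0 := fun l => by
          split_ifs
          · rfl
          · exact map_zero _
        simp only [e3, ite_mul, zero_mul, Finset.sum_ite_eq, Finset.mem_univ, if_true]
        refine Fin.cases ?_ (fun j => ?_) j
        · simp only [ph, Fin.cons_zero, Fin.cons_succ]
          rw [step]
          have h3 : ps (TT D) * d⁄dX ℚ (hs ((p i : ℚ) / D) ((q i : ℚ) / D)) =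
              C (D : ℚ) + (C (-(p i : ℚ)) + C ((p i : ℚ) + q i) * X) * hs ((p i : ℚ) / D) ((q i : ℚ) / D) := by
            have h4 := h1 ((p i : ℚ) / D) ((q i : ℚ) / D) (hu i)
            have h5 : C (-((p i : ℚ) / D)) * C (D : ℚ) = (C (-(p i : ℚ)) : ℚ⟦X⟧) := by
              rw [← map_mul]
              congr 1
              field_simp
            have h6 : C ((p i : ℚ) / D + (q i : ℚ) / D) * C (D : ℚ) = (C ((p i : ℚ) + q i) : ℚ⟦X⟧) := by
              rw [← map_mul]
              congr 1
              field_simp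
            rw [hT, ← h5, ← h6]
            linear_combination C (D : ℚ) * h4
          rw [h3, map_add, map_mul]
          ring
        · simp only [ph, Fin.cons_zero, Fin.cons_succ]
          split_ifs with hij
          · subst hij
            rw [step]
            have h3 : ps (TT D) * d⁄dX ℚ (R (q i) D) = X * (C (q i : ℚ) * R (q i) D) := by
              rw [hT]
              linear_combination X * rde' (q i) D hD
            rw [h3, hT]
            have h4 : ((M - (p i).toNat : ℕ) : PowerSeries ℂ) - (M : PowerSeries ℂ) = -((p i : ℤ) : PowerSeries ℂ) := by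
              rw [Nat.cast_sub (hMj i)]
              have : ((p i).toNat : ℤ) = p i := Int.toNat_of_nonneg (hp i).le
              have h5 : (((p i).toNat : ℕ) : PowerSeries ℂ) = ((p i : ℤ) : PowerSeries ℂ) := by
                exact_mod_cast congrArg (Int.cast : ℤ → PowerSeries ℂ) this
              rw [h5]
              ring
            rw [h4]
            simp only [map_add, map_mul, map_neg, map_sub, map_one, EE_X, EE_nat, EE_int]
            ring
          · simp
    · obtain ⟨k'', rfl⟩ : ∃ k'', k' = k'' + 1 := ⟨k' - 1, by omega⟩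
      simp
  · have hdet : (Matrix.of fun i j => (Polynomial.C (ph hD0 p q M i j) : Polynomial (PowerSeries ℂ))).det =
        ∏ i, Polynomial.C (ph hD0 p q M i i) := by
      rw [Matrix.det_of_isLowerTriangular]
      · rfl
      · intro i j hij
        have hij' : i < j := hij
        show Polynomial.C (ph hD0 p q M i j) = 0
        rw [Polynomial.C_eq_zero]
        revert hij'
        refine Fin.cases ?_ (fun i => ?_) i
        · refine Fin.cases ?_ (fun j => ?_) j
          · intro h
            exact absurd h (lt_irrefl _)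
          · intro _
            simp [ph]
        · refine Fin.cases ?_ (fun j => ?_) j
          · intro h
            exact absurd h (by simp)
          · intro h
            have : i ≠ j := fun h' => by
              rw [h'] at h
              exact lt_irrefl _ h
            simp [ph, this]
    show (Matrix.of fun i j => (Polynomial.C (ph hD0 p q M i j) : Polynomial (PowerSeries ℂ))).det ≠ 0
    rw [hdet, Finset.prod_ne_zero_iff]
    intro i _
    rw [Ne, Polynomial.C_eq_zero]
    refine Fin.cases ?_ (fun i => ?_) i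
    · simp only [ph, Fin.cons_zero]
      exact pow_ne_zero _ X_ne_zero
    · simp only [ph, Fin.cons_succ, if_true]
      refine mul_ne_zero (pow_ne_zero _ X_ne_zero) ?_
      intro h0
      have h3 := congrArg (coeff 0) h0
      rw [EE_apply, coeff_expand, if_pos (dvd_zero _), Nat.zero_div, Pool.Agent.Y120.GH.coeff_cx, R_zero] at h3
      simp at h3

end Pool.Agent.Q224.IB
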